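import Pool.Agent.Lib.LU3_h37.Gt

/-! # Block 3c: the order drop in the case where `v(L₀)` is not finitely generated -/

set_option autoImplicit false

open Polynomial

namespace Pool.Agent.LU3.H37

open Pool.Agent.H15JM (RVal)
open Pool.Agent.LU1

universe u

variable {k Ω : Type u} [Field k] [Field Ω] [Algebra k Ω] {v : RVal Ω}

/-- `P(ψ₀)` is a monomial of value `φ` and all `P^[j](ψ₀)`, `j ≥ 1`, have content
greater than `φ - j α₀`. -/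
def KP (M : MR k v) (ψ₀ : Ω) (α₀ : ℝ) (P : Polynomial Ω) (φ : ℝ) : Prop :=
  φ ∈ M.Γ ∧ (∃ w, M.Un w ∧ P.eval ψ₀ = M.χ φ * w) ∧
    ∀ j : ℕ, 1 ≤ j → M.Gt (φ - (j : ℝ) * α₀) ((hasseDeriv j P).eval ψ₀)

variable {M : MR k v}

theorem KP.eval {ψ₀ : Ω} {α₀ : ℝ} {P : Polynomial Ω} {φ : ℝ} (h : KP M ψ₀ α₀ P φ) (hα : α₀ ∈ M.Γ)
    {τ : Ω} (hτ : τ ∈ M.R) :
    M.Gt φ (P.eval (ψ₀ + M.χ α₀ * τ) - P.eval ψ₀) := by
  rw [eval_taylor, Finset.sum_range_succ']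
  have h0 : (hasseDeriv 0 P).eval ψ₀ * (M.χ α₀ * τ) ^ 0 = P.eval ψ₀ := by
    rw [pow_zero, mul_one, hasseDeriv_zero']
  rw [h0, add_sub_cancel_right]
  refine MR.Gt.sum _ _ fun j _ => ?_
  have h1 := h.2.2 (j + 1) (by omega)
  have h2 := h1.χ_mul (M.mul_mem_Γ hα (j + 1))
  rw [sub_add_cancel] at h2
  have h3 := h2.mul (M.R.pow_mem hτ (j + 1))
  have h4 : (hasseDeriv (j + 1) P).eval ψ₀ * (M.χ α₀ * τ) ^ (j + 1) =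
      M.χ ((j + 1 : ℕ) * α₀) * (hasseDeriv (j + 1) P).eval ψ₀ * τ ^ (j + 1) := by
    rw [M.χ_nsmul hα, mul_pow]; ring
  rw [h4]
  exact h3

theorem KP.eval_un {ψ₀ : Ω} {α₀ : ℝ} {P : Polynomial Ω} {φ : ℝ} (h : KP M ψ₀ α₀ P φ) (hα : α₀ ∈ M.Γ)
    {τ : Ω} (hτ : τ ∈ M.R) :
    ∃ w, M.Un w ∧ P.eval (ψ₀ + M.χ α₀ * τ) = M.χ φ * w := by
  obtain ⟨w, hw, h1⟩ := h.2.1
  have h2 := h.eval hα hτ
  obtain ⟨δ, hδ, h3, a, ha, h4⟩ := h2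
  obtain ⟨e, he, h5⟩ : ∃ e, M.Gt 0 e ∧ M.χ δ * a = M.χ φ * e := by
    refine ⟨M.χ (δ - φ) * a, ⟨δ - φ, M.Γ.sub_mem hδ h.1, by linarith, a, ha, rfl⟩, ?_⟩
    rw [← mul_assoc, ← M.χ_add φ h.1 _ (M.Γ.sub_mem hδ h.1)]
    congr 2
    ring
  refine ⟨w + e, hw.add_gt he, ?_⟩
  rw [mul_add, ← h5, ← h4, ← h1]
  ring

/-- the value of `G` at `z = ψ + χ(a) z'` -/
theorem G_eval {ψ₀ ψ z z' y : Ω} {α₀ a : ℝ} (hα : α₀ ∈ M.Γ) (ha : a ∈ M.Γ)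
    {τ : Ω} (hτ : τ ∈ M.R) (hψ : ψ = ψ₀ + M.χ α₀ * τ) (hz : z = ψ + M.χ a * z')
    (hz' : z' ∈ M.R) (hy : y ∈ M.R)
    {G : Polynomial Ω} {h D : ℕ} {φh : ℝ} (hh : 1 ≤ h)
    (hGh : KP M ψ₀ α₀ (hasseDeriv h G) φh)
    (hG : ∀ i, 1 ≤ i → i ≠ h → hasseDeriv i G = 0 ∨
      ∃ φ, KP M ψ₀ α₀ (hasseDeriv i G) φ ∧ φh + h * a < φ + i * a)
    {u : Ω} (hu : M.Un u) (hH : ∃ e, M.Gt 0 e ∧
      G.eval ψ = (hasseDeriv h G).eval ψ₀ * M.χ (h * a) * (u * y ^ D + e)) :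
    ∃ w u', M.Un w ∧ M.Un u' ∧ ∃ e, M.Gt 0 e ∧
      G.eval z = M.χ (φh + h * a) * (w * z' ^ h + u' * y ^ D + e) := by
  obtain ⟨e0, he0, hH⟩ := hH
  obtain ⟨w0, hw0, h1⟩ := hGh.2.1
  obtain ⟨w, hw, h2⟩ := hGh.eval_un hα hτ
  have hhΓ : (h : ℝ) * a ∈ M.Γ := M.mul_mem_Γ ha h
  have hκ : φh + h * a ∈ M.Γ := M.Γ.add_mem hGh.1 hhΓ
  -- the other terms
  have hrest : ∀ i, 1 ≤ i → i ≠ h →
      M.Gt (φh + h * a) ((hasseDeriv i G).eval ψ * (M.χ a * z') ^ i) := by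
    intro i hi hih
    rcases hG i hi hih with h0 | ⟨φ, hφ, hlt⟩
    · rw [h0, eval_zero, zero_mul]; exact MR.Gt.zero _
    · obtain ⟨w1, hw1, h3⟩ := hφ.eval_un hα hτ
      rw [hψ, h3, mul_pow, ← M.χ_nsmul ha]
      refine ⟨φ + i * a, M.Γ.add_mem hφ.1 (M.mul_mem_Γ ha i), hlt, w1 * z' ^ i,
        M.R.mul_mem hw1.1 (M.R.pow_mem hz' i), ?_⟩
      rw [M.χ_add φ hφ.1 _ (M.mul_mem_Γ ha i)]
      ring
  -- the Taylor expansion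
  have hexp : M.Gt (φh + h * a) (G.eval z - G.eval ψ -
      (hasseDeriv h G).eval ψ * (M.χ a * z') ^ h) := by
    have h3 : G.eval z = ∑ j ∈ Finset.range (max (G.natDegree + 1) (h + 1)),
        (hasseDeriv j G).eval ψ * (M.χ a * z') ^ j := by
      rw [hz, eval_taylor]
      refine Finset.sum_subset (Finset.range_mono (le_max_left _ _)) fun j _ hj => ?_
      have h4 : G.natDegree < j := by
        rw [Finset.mem_range, not_lt] at hj; omega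
      rw [hasseDeriv_eq_zero_of_lt_natDegree _ _ h4, eval_zero, zero_mul]
    have h0m : 0 ∈ Finset.range (max (G.natDegree + 1) (h + 1)) := by
      rw [Finset.mem_range]; exact lt_max_of_lt_left (by omega)
    have hhm : h ∈ (Finset.range (max (G.natDegree + 1) (h + 1))).erase 0 := by
      rw [Finset.mem_erase, Finset.mem_range]
      exact ⟨by omega, lt_max_of_lt_right (by omega)⟩
    rw [h3, ← Finset.add_sum_erase _ _ h0m, ← Finset.add_sum_erase _ _ hhm, pow_zero, mul_one,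
      hasseDeriv_zero']
    have h5 : G.eval ψ + ((hasseDeriv h G).eval ψ * (M.χ a * z') ^ h +
        ∑ x ∈ ((Finset.range (max (G.natDegree + 1) (h + 1))).erase 0).erase h,
          (hasseDeriv x G).eval ψ * (M.χ a * z') ^ x) - G.eval ψ -
        (hasseDeriv h G).eval ψ * (M.χ a * z') ^ h =
        ∑ x ∈ ((Finset.range (max (G.natDegree + 1) (h + 1))).erase 0).erase h,
          (hasseDeriv x G).eval ψ * (M.χ a * z') ^ x := by ring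
    rw [h5]
    refine MR.Gt.sum _ _ fun i hi => ?_
    rw [Finset.mem_erase, Finset.mem_erase] at hi
    exact hrest i (by omega) hi.1
  obtain ⟨δ, hδ, hlt, b, hb, hb2⟩ := hexp
  refine ⟨w, w0 * u, hw, hw0.mul hu, w0 * e0 + M.χ (δ - (φh + h * a)) * b, ?_, ?_⟩
  · exact (he0.mul' hw0.1).add ⟨δ - (φh + h * a), M.Γ.sub_mem hδ hκ, by linarith, b, hb, rfl⟩
  · have h6 : G.eval z = G.eval ψ + (hasseDeriv h G).eval ψ * (M.χ a * z') ^ h + M.χ δ * b := by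
      rw [← hb2]; ring
    have h7 : M.χ δ = M.χ (φh + h * a) * M.χ (δ - (φh + h * a)) := by
      rw [← M.χ_add _ hκ _ (M.Γ.sub_mem hδ hκ)]; congr 1; ring
    have h8 : (hasseDeriv h G).eval ψ = M.χ φh * w := by rw [hψ]; exact h2
    rw [h6, hH, h8, h1, mul_pow, ← M.χ_nsmul ha, h7, M.χ_add φh hGh.1 _ hhΓ]
    ring

/-- Block 3c, the final computation. -/
theorem core3c {ψ₀ ψ z z' y : Ω} {α₀ a : ℝ} (hα : α₀ ∈ M.Γ) (ha : a ∈ M.Γ) (hle : α₀ ≤ a)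
    {τ : Ω} (hτ : τ ∈ M.R) (hψ : ψ = ψ₀ + M.χ α₀ * τ) (hz : z = ψ + M.χ a * z')
    (hz' : z' ∈ M.R) (hy : y ∈ M.R)
    {G : Polynomial Ω} {h D : ℕ} {φh : ℝ} (hh : 1 ≤ h)
    (hGh : KP M ψ₀ α₀ (hasseDeriv h G) φh)
    (hG : ∀ i, 1 ≤ i → i ≠ h → hasseDeriv i G = 0 ∨
      ∃ φ, KP M ψ₀ α₀ (hasseDeriv i G) φ ∧ φh + h * a < φ + i * a)
    {u : Ω} (hu : M.Un u) (hH : ∃ e, M.Gt 0 e ∧
      G.eval ψ = (hasseDeriv h G).eval ψ₀ * M.χ (h * a) * (u * y ^ D + e))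
    {f : ℕ → Polynomial Ω} {N s₀ : ℕ} (hs₀ : s₀ ∈ Finset.range N) {φ₀ : ℝ}
    (hf₀ : KP M ψ₀ α₀ (f s₀) φ₀)
    (hf : ∀ s ∈ Finset.range N, s ≠ s₀ → f s = 0 ∨ ∃ φ, KP M ψ₀ α₀ (f s) φ ∧
      φ₀ + s₀ * (φh + h * a) < φ + s * (φh + h * a)) :
    φ₀ + s₀ * (φh + h * a) ∈ M.Γ ∧
    ∃ U, M.Un U ∧ ∃ b ∈ M.R, ∃ δ ∈ M.Γ, 0 < δ ∧ ∃ c ∈ M.R,
      ((∑ s ∈ Finset.range N, f s * G ^ s).eval z) =
        M.χ (φ₀ + s₀ * (φh + h * a)) * (U * y ^ (s₀ * D) + z' * b + M.χ δ * c) := by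
  obtain ⟨w, u', hw, hu', e, he, hGz⟩ := G_eval hα ha hτ hψ hz hz' hy hh hGh hG hu hH
  have hhΓ : (h : ℝ) * a ∈ M.Γ := M.mul_mem_Γ ha h
  have hκ : φh + h * a ∈ M.Γ := M.Γ.add_mem hGh.1 hhΓ
  have hκs : ∀ s : ℕ, (s : ℝ) * (φh + h * a) ∈ M.Γ := fun s => M.mul_mem_Γ hκ s
  have hκ' : φ₀ + s₀ * (φh + h * a) ∈ M.Γ := M.Γ.add_mem hf₀.1 (hκs s₀)
  refine ⟨hκ', ?_⟩
  set g : Ω := w * z' ^ h + u' * y ^ D + e with hg
  have hgR : g ∈ M.R := M.R.add_mem (M.R.add_mem (M.R.mul_mem hw.1 (M.R.pow_mem hz' h))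
    (M.R.mul_mem hu'.1 (M.R.pow_mem hy D))) (he.mem le_rfl)
  -- `z = ψ₀ + χ(α₀) τ'`
  obtain ⟨τ', hτ', hzτ⟩ : ∃ τ' ∈ M.R, z = ψ₀ + M.χ α₀ * τ' := by
    obtain ⟨c, hc, h1⟩ := M.χ_dvd ha hα hle
    exact ⟨τ + c * z', M.R.add_mem hτ (M.R.mul_mem hc hz'), by rw [hz, hψ, h1]; ring⟩
  have hGs : ∀ s : ℕ, (G ^ s).eval z = M.χ (s * (φh + h * a)) * g ^ s := by
    intro s
    rw [eval_pow, hGz, mul_pow, M.χ_nsmul hκ]
  -- the other terms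
  have hother : M.Gt (φ₀ + s₀ * (φh + h * a))
      (∑ s ∈ (Finset.range N).erase s₀, (f s * G ^ s).eval z) := by
    refine MR.Gt.sum _ _ fun s hs => ?_
    rw [Finset.mem_erase] at hs
    rcases hf s hs.2 hs.1 with h0 | ⟨φ, hφ, hlt⟩
    · rw [h0, zero_mul, eval_zero]; exact MR.Gt.zero _
    · obtain ⟨w1, hw1, h3⟩ := hφ.eval_un hα hτ'
      rw [eval_mul, hGs, hzτ, h3]
      refine ⟨φ + s * (φh + h * a), M.Γ.add_mem hφ.1 (hκs s), hlt, w1 * g ^ s,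
        M.R.mul_mem hw1.1 (M.R.pow_mem hgR s), ?_⟩
      rw [M.χ_add φ hφ.1 _ (hκs s)]
      ring
  obtain ⟨w0, hw0, h3⟩ := hf₀.eval_un hα hτ'
  -- the power of `g`
  have hpow : ∃ b ∈ M.R, ∃ e', M.Gt 0 e' ∧ g ^ s₀ = (u' * y ^ D) ^ s₀ + z' * b + e' := by
    have h4 : M.Gt 0 ((w * z' ^ h + u' * y ^ D + e) ^ s₀ - (w * z' ^ h + u' * y ^ D) ^ s₀) :=
      MR.gt_pow (M.R.add_mem (M.R.mul_mem hw.1 (M.R.pow_mem hz' h))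
        (M.R.mul_mem hu'.1 (M.R.pow_mem hy D))) he s₀
    have h5 : ∀ s : ℕ, ∃ b ∈ M.R, (w * z' ^ h + u' * y ^ D) ^ s = (u' * y ^ D) ^ s + z' * b := by
      intro s
      induction s with
      | zero => exact ⟨0, M.R.zero_mem, by simp⟩
      | succ s ih =>
        obtain ⟨b, hb, h6⟩ := ih
        obtain ⟨n, rfl⟩ := Nat.exists_eq_succ_of_ne_zero (show h ≠ 0 by omega)
        refine ⟨b * (w * z' ^ (n + 1) + u' * y ^ D) + (u' * y ^ D) ^ s * (w * z' ^ n), ?_, ?_⟩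
        · exact M.R.add_mem (M.R.mul_mem hb (M.R.add_mem (M.R.mul_mem hw.1 (M.R.pow_mem hz' _))
            (M.R.mul_mem hu'.1 (M.R.pow_mem hy D))))
            (M.R.mul_mem (M.R.pow_mem (M.R.mul_mem hu'.1 (M.R.pow_mem hy D)) s)
            (M.R.mul_mem hw.1 (M.R.pow_mem hz' n)))
        · rw [pow_succ, h6]
          simp only [Nat.succ_eq_add_one]
          ring
    obtain ⟨b, hb, h6⟩ := h5 s₀
    exact ⟨b, hb, _, h4, by rw [hg, ← h6]; ring⟩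
  obtain ⟨b, hb, e', he', hgs⟩ := hpow
  obtain ⟨δ, hδ, hlt, c, hc, hc2⟩ := hother
  have h7 : M.χ δ = M.χ (φ₀ + s₀ * (φh + h * a)) * M.χ (δ - (φ₀ + s₀ * (φh + h * a))) := by
    rw [← M.χ_add _ hκ' _ (M.Γ.sub_mem hδ hκ')]; congr 1; ring
  have h8 : M.Gt 0 (w0 * e' + M.χ (δ - (φ₀ + s₀ * (φh + h * a))) * c) :=
    (he'.mul' hw0.1).add ⟨_, M.Γ.sub_mem hδ hκ', by linarith, c, hc, rfl⟩
  obtain ⟨δ', hδ', hδ0, c', hc', h9⟩ := h8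
  refine ⟨w0 * u' ^ s₀, hw0.mul (hu'.pow s₀), w0 * b, M.R.mul_mem hw0.1 hb, δ', hδ', hδ0, c',
    hc', ?_⟩
  rw [eval_finset_sum, ← Finset.add_sum_erase _ _ hs₀, hc2, eval_mul, hGs, hgs, hzτ, h3, h7,
    ← h9, M.χ_add φ₀ hf₀.1 _ (hκs s₀), mul_pow, pow_mul']
  ring

end Pool.Agent.LU3.H37
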