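import Pool.Agent.Lib.LU1_h15.Basic

/-! # Elements of content greater than `γ` (calculus for the block 3c) -/

set_option autoImplicit false

open Polynomial

namespace Pool.Agent.LU3.H37

open Pool.Agent.H15JM (RVal)
open Pool.Agent.LU1

universe u

/-- A ring with monomials. -/
structure MR (k : Type u) {Ω : Type u} [Field k] [Field Ω] [Algebra k Ω] (v : RVal Ω) where
  Γ : AddSubgroup ℝ
  χ : ℝ → Ω
  χ_ne : ∀ γ ∈ Γ, χ γ ≠ 0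
  χ_add : ∀ γ ∈ Γ, ∀ δ ∈ Γ, χ (γ + δ) = χ γ * χ δ
  χ_val : ∀ γ ∈ Γ, v (χ γ) = γ
  R : Subalgebra k Ω
  nonneg : ∀ f ∈ R, v.Ge 0 f
  loc : ∀ f ∈ R, f ≠ 0 → v f = 0 → f⁻¹ ∈ R
  χ_mem : ∀ γ ∈ Γ, 0 ≤ γ → χ γ ∈ R
  pos : ∃ γ ∈ Γ, 0 < γ

variable {k Ω : Type u} [Field k] [Field Ω] [Algebra k Ω] {v : RVal Ω}

namespace MR

variable (M : MR k v)

/-- a unit -/
def Un (f : Ω) : Prop := f ∈ M.R ∧ f ≠ 0 ∧ v f = 0

/-- content greater than `γ` -/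
def Gt (γ : ℝ) (f : Ω) : Prop := ∃ δ ∈ M.Γ, γ < δ ∧ ∃ a ∈ M.R, f = M.χ δ * a

theorem χ_zero : M.χ 0 = 1 := by
  have h := M.χ_add 0 M.Γ.zero_mem 0 M.Γ.zero_mem
  rw [add_zero] at h
  exact (mul_right_cancel₀ (M.χ_ne 0 M.Γ.zero_mem) (by rw [one_mul]; exact h)).symm

theorem mul_mem_Γ {γ : ℝ} (h : γ ∈ M.Γ) (n : ℕ) : (n : ℝ) * γ ∈ M.Γ := by
  rw [← nsmul_eq_mul]; exact M.Γ.nsmul_mem h n

theorem χ_nsmul {γ : ℝ} (h : γ ∈ M.Γ) (n : ℕ) : M.χ (n * γ) = M.χ γ ^ n := by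
  induction n with
  | zero => simp [M.χ_zero]
  | succ n ih =>
    have h1 : ((n + 1 : ℕ) : ℝ) * γ = n * γ + γ := by push_cast; ring
    rw [h1, M.χ_add _ (M.mul_mem_Γ h n) _ h, ih, pow_succ]

theorem χ_dvd {γ δ : ℝ} (h : γ ∈ M.Γ) (h' : δ ∈ M.Γ) (hle : δ ≤ γ) :
    ∃ a ∈ M.R, M.χ γ = M.χ δ * a :=
  ⟨M.χ (γ - δ), M.χ_mem _ (M.Γ.sub_mem h h') (sub_nonneg.2 hle), by
    rw [← M.χ_add δ h' _ (M.Γ.sub_mem h h')]; congr 1; ring⟩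

theorem exists_gt (γ : ℝ) : ∃ δ ∈ M.Γ, γ < δ := by
  obtain ⟨ε, hε, h0⟩ := M.pos
  obtain ⟨n, hn⟩ := exists_nat_gt (γ / ε)
  exact ⟨n * ε, M.mul_mem_Γ hε n, by rwa [div_lt_iff₀ h0] at hn⟩

variable {M}

theorem Gt.zero (γ : ℝ) : M.Gt γ 0 := by
  obtain ⟨δ, hδ, h⟩ := M.exists_gt γ
  exact ⟨δ, hδ, h, 0, M.R.zero_mem, by rw [mul_zero]⟩

theorem Gt.add {γ : ℝ} {f g : Ω} (hf : M.Gt γ f) (hg : M.Gt γ g) : M.Gt γ (f + g) := by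
  obtain ⟨δ, hδ, h1, a, ha, rfl⟩ := hf
  obtain ⟨ε, hε, h2, b, hb, rfl⟩ := hg
  rcases le_total δ ε with hle | hle
  · obtain ⟨e, he, h3⟩ := M.χ_dvd hε hδ hle
    exact ⟨δ, hδ, h1, a + e * b, M.R.add_mem ha (M.R.mul_mem he hb), by rw [h3]; ring⟩
  · obtain ⟨e, he, h3⟩ := M.χ_dvd hδ hε hle
    exact ⟨ε, hε, h2, e * a + b, M.R.add_mem (M.R.mul_mem he ha) hb, by rw [h3]; ring⟩

theorem Gt.mul {γ : ℝ} {f g : Ω} (hf : M.Gt γ f) (hg : g ∈ M.R) : M.Gt γ (f * g) := by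
  obtain ⟨δ, hδ, h1, a, ha, rfl⟩ := hf
  exact ⟨δ, hδ, h1, a * g, M.R.mul_mem ha hg, by rw [mul_assoc]⟩

theorem Gt.mul' {γ : ℝ} {f g : Ω} (hf : M.Gt γ f) (hg : g ∈ M.R) : M.Gt γ (g * f) := by
  rw [mul_comm]; exact hf.mul hg

theorem Gt.neg {γ : ℝ} {f : Ω} (hf : M.Gt γ f) : M.Gt γ (-f) := by
  have h := hf.mul (M.R.neg_mem M.R.one_mem)
  rwa [mul_neg_one] at h

theorem Gt.sub {γ : ℝ} {f g : Ω} (hf : M.Gt γ f) (hg : M.Gt γ g) : M.Gt γ (f - g) := by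
  rw [sub_eq_add_neg]; exact hf.add hg.neg

theorem Gt.anti {γ γ' : ℝ} {f : Ω} (hf : M.Gt γ f) (h : γ' ≤ γ) : M.Gt γ' f := by
  obtain ⟨δ, hδ, h1, a, ha, rfl⟩ := hf
  exact ⟨δ, hδ, h.trans_lt h1, a, ha, rfl⟩

theorem Gt.χ_mul {γ δ : ℝ} {f : Ω} (hf : M.Gt γ f) (hδ : δ ∈ M.Γ) :
    M.Gt (γ + δ) (M.χ δ * f) := by
  obtain ⟨ε, hε, h1, a, ha, rfl⟩ := hf
  exact ⟨ε + δ, M.Γ.add_mem hε hδ, by linarith, a, ha, by rw [M.χ_add _ hε _ hδ]; ring⟩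

theorem Gt.of_χ_mul {γ δ : ℝ} {f : Ω} (hf : M.Gt (γ + δ) (M.χ δ * f)) (hδ : δ ∈ M.Γ) :
    M.Gt γ f := by
  have h1 := hf.χ_mul (M.Γ.neg_mem hδ)
  have h2 : M.χ (-δ) * (M.χ δ * f) = f := by
    rw [← mul_assoc, ← M.χ_add _ (M.Γ.neg_mem hδ) _ hδ, neg_add_cancel, M.χ_zero, one_mul]
  rw [h2] at h1
  exact h1.anti (by linarith)

theorem Gt.sum {ι : Type*} (s : Finset ι) {γ : ℝ} (f : ι → Ω) (hf : ∀ i ∈ s, M.Gt γ (f i)) :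
    M.Gt γ (∑ i ∈ s, f i) := by
  classical
  induction s using Finset.induction_on with
  | empty => simpa using Gt.zero γ
  | insert i s hi ih =>
    rw [Finset.sum_insert hi]
    exact (hf i (Finset.mem_insert_self _ _)).add
      (ih fun j hj => hf j (Finset.mem_insert_of_mem hj))

theorem Gt.mem {γ : ℝ} {f : Ω} (hf : M.Gt γ f) (h : 0 ≤ γ) : f ∈ M.R := by
  obtain ⟨δ, hδ, h1, a, ha, rfl⟩ := hf
  exact M.R.mul_mem (M.χ_mem _ hδ (h.trans h1.le)) ha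

theorem Gt.vpos {f : Ω} (hf : M.Gt 0 f) : VPos v f := by
  obtain ⟨δ, hδ, h1, a, ha, rfl⟩ := hf
  refine VPos.mul (fun _ => ?_) (M.nonneg a ha)
  rw [M.χ_val δ hδ]; exact h1

theorem Un.add_gt {f g : Ω} (hf : M.Un f) (hg : M.Gt 0 g) : M.Un (f + g) := by
  have := val_add_vpos hf.2.1 hf.2.2 hg.vpos
  exact ⟨M.R.add_mem hf.1 (hg.mem le_rfl), this.1, this.2⟩

theorem Un.one : M.Un 1 := ⟨M.R.one_mem, one_ne_zero, v.map_one⟩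

theorem Un.mul {f g : Ω} (h : M.Un f) (h' : M.Un g) : M.Un (f * g) :=
  ⟨M.R.mul_mem h.1 h'.1, mul_ne_zero h.2.1 h'.2.1, by
    rw [v.map_mul h.2.1 h'.2.1, h.2.2, h'.2.2, add_zero]⟩

theorem Un.pow {f : Ω} (h : M.Un f) (n : ℕ) : M.Un (f ^ n) := by
  induction n with
  | zero => simpa using Un.one
  | succ n ih => rw [pow_succ]; exact ih.mul h

theorem Un.inv {f : Ω} (h : M.Un f) : M.Un f⁻¹ :=
  ⟨M.loc f h.1 h.2.1 h.2.2, inv_ne_zero h.2.1, by rw [v.map_inv h.2.1, h.2.2, neg_zero]⟩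

/-- `(p + g)^s = p^s + (content > 0)`. -/
theorem gt_pow {p g : Ω} (hp : p ∈ M.R) (hg : M.Gt 0 g) (s : ℕ) :
    M.Gt 0 ((p + g) ^ s - p ^ s) := by
  have hpg : p + g ∈ M.R := M.R.add_mem hp (hg.mem le_rfl)
  induction s with
  | zero => simpa using Gt.zero 0
  | succ s ih =>
    have h1 : (p + g) ^ (s + 1) - p ^ (s + 1) =
        ((p + g) ^ s - p ^ s) * (p + g) + g * p ^ s := by ring
    rw [h1]
    exact (ih.mul hpg).add (hg.mul (M.R.pow_mem hp s))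

end MR

/-- Taylor expansion. -/
theorem eval_taylor (P : Polynomial Ω) (x t : Ω) :
    P.eval (x + t) = ∑ j ∈ Finset.range (P.natDegree + 1),
      (hasseDeriv j P).eval x * t ^ j := by
  have h := taylor_eval x P t
  rw [add_comm t x] at h
  rw [← h, eval_eq_sum_range, natDegree_taylor]
  simp only [taylor_coeff]

end Pool.Agent.LU3.H37
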